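import Pool.Agent.W500.CS.Stm

/-!
Part CQ-LOW: lower bound by the branch which occurs along one germ.
-/

set_option autoImplicit false

namespace Pool.Agent.W368.CQ.LOW

open MeasureTheory Metric Set Filter Topology
open Pool.Agent.W500.CS

theorem Gm_hasDerivAt (κ φ₀ q φ : ℝ) :
    HasDerivAt (Gm κ φ₀ q) (((κ : ℂ) + Complex.I) * Gm κ φ₀ q φ) φ := by
  have h1 : HasDerivAt (fun φ : ℝ => (κ : ℂ) * ((φ : ℂ) - φ₀) + Complex.I * φ)
      ((κ : ℂ) * 1 + Complex.I * 1) φ := by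
    have h0 : HasDerivAt (fun φ : ℝ => (φ : ℂ)) 1 φ := Complex.ofRealCLM.hasDerivAt
    exact ((h0.sub_const _).const_mul _).add (h0.const_mul _)
  have h2 := (h1.cexp).const_mul (q : ℂ)
  have h3 : (q : ℂ) * (Complex.exp ((κ : ℂ) * ((φ : ℂ) - φ₀) + Complex.I * φ) *
      ((κ : ℂ) * 1 + Complex.I * 1)) = ((κ : ℂ) + Complex.I) * Gm κ φ₀ q φ := by
    rw [Gm]
    ring
  rw [h3] at h2
  exact h2

theorem Gm_contDiff (κ φ₀ q : ℝ) : ContDiff ℝ 2 (Gm κ φ₀ q) := by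
  have h0 : ContDiff ℝ 2 (fun φ : ℝ => (φ : ℂ)) := Complex.ofRealCLM.contDiff
  unfold Gm
  exact contDiff_const.mul ((((contDiff_const.mul (h0.sub contDiff_const)).add
    (contDiff_const.mul h0))).cexp)

theorem main : S_QC → S_CURVE → S_LOW := by
  intro hQC hCU r R κ φ₀ δ ε U B h hR hδ hε hD hB hh hG hne q φ₁ i hq hφ₁ hU φ hφ
  have hmem : ∀ t ∈ Ioo (φ₀ - δ) (φ₀ + δ), Gm κ φ₀ q t ∈ ball (0 : ℂ) R \ {0} := fun t ht =>
    hG q hq t (Ioo_subset_Icc_self ht)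
  obtain ⟨hs1, hs2⟩ := hCU r _ U B hD (Gm κ φ₀ q) (φ₀ - δ) (φ₀ + δ)
    (fun t ht => ⟨hmem t ht, (Gm_contDiff κ φ₀ q).contDiffAt⟩)
  have hder : ∀ t, deriv (Gm κ φ₀ q) t = ((κ : ℂ) + Complex.I) * Gm κ φ₀ q t := fun t =>
    (Gm_hasDerivAt κ φ₀ q t).deriv
  set ψ : Fin r → ℝ → ℝ := fun j t =>
    (B j (Gm κ φ₀ q t) * (((κ : ℂ) + Complex.I) * Gm κ φ₀ q t)).re with hψ
  set η : Fin r → ℝ → ℝ := fun j t => (h j (Gm κ φ₀ q t)).re with hη
  have hGc : Continuous (Gm κ φ₀ q) := (Gm_contDiff κ φ₀ q).continuous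
  have hψc : ∀ j, ContinuousOn (ψ j) (Ioo (φ₀ - δ) (φ₀ + δ)) := by
    intro j
    refine Complex.continuous_re.comp_continuousOn ?_
    refine ContinuousOn.mul ?_ (continuousOn_const.mul hGc.continuousOn)
    exact (hB j).continuousOn.comp hGc.continuousOn (fun t ht => (hmem t ht).1)
  have hsep : Sep (φ₀ - δ) (φ₀ + δ) ψ := by
    intro j k
    rcases eq_or_ne j k with rfl | hjk
    · exact Or.inl fun t _ => rfl
    · right
      have hn : ∀ t ∈ Ioo (φ₀ - δ) (φ₀ + δ), ψ j t ≠ ψ k t := fun t ht =>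
        hne j k hjk q hq t (Ioo_subset_Icc_self ht)
      by_contra hcon
      push Not at hcon
      obtain ⟨⟨s, hs, hs'⟩, ⟨t, ht, ht'⟩⟩ := hcon
      have hc : ContinuousOn (fun t => ψ j t - ψ k t) (Ioo (φ₀ - δ) (φ₀ + δ)) :=
        (hψc j).sub (hψc k)
      have hiv := isPreconnected_Ioo.intermediate_value ht hs hc
      obtain ⟨u, hu, hu'⟩ := hiv (show (0 : ℝ) ∈ Icc _ _ from
        ⟨by simpa using ht', by simpa using hs'⟩)
      exact hn u hu (sub_eq_zero.1 hu')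
  have hright : ∀ t ∈ Ioo (φ₀ - δ) (φ₀ + δ), ∃ j,
      HasDerivWithinAt (fun t => U (Gm κ φ₀ q t)) (ψ j t) (Ioi t) t := by
    intro t ht
    obtain ⟨j, hj⟩ := hs2 t ht
    refine ⟨j, ?_⟩
    rw [hder] at hj
    exact hj
  have hηd : ∀ j, ∀ t ∈ Ioo (φ₀ - δ) (φ₀ + δ), HasDerivAt (η j) (ψ j t) t := by
    intro j t ht
    have h1 := (hh j _ (hmem t ht).1).scomp t (Gm_hasDerivAt κ φ₀ q t)
    have h2 := Complex.reCLM.hasFDerivAt.comp_hasDerivAt t h1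
    have h3 : Complex.reCLM ((((κ : ℂ) + Complex.I) * Gm κ φ₀ q t) • B j (Gm κ φ₀ q t)) =
        ψ j t := by
      simp only [hψ, smul_eq_mul, Complex.reCLM_apply]
      rw [mul_comm]
    rw [h3] at h2
    exact h2
  have hU1 : HasDerivAt (fun t => U (Gm κ φ₀ q t)) (ψ i φ₁) φ₁ := by
    have h1 := hU.comp_hasDerivAt φ₁ (Gm_hasDerivAt κ φ₀ q φ₁)
    rw [gr_apply] at h1
    exact h1
  exact (hQC r (φ₀ - δ) (φ₀ + δ) (fun t => U (Gm κ φ₀ q t)) ψ η hs1 hψc hsep hright hηd).2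
    i φ₁ hφ₁ hU1 φ hφ

end Pool.Agent.W368.CQ.LOW
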